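import Pool.Agent.Lib.MP_2d002d_gt.Interfaces

/-!
# MP_2d002d_gt, module M11c: gamma mixtures
-/

set_option autoImplicit false

open MeasureTheory Set Filter Topology

namespace Pool.Agent.Lib.MP_2d002d_gt.H96

/-- the log-scale gamma kernel -/
noncomputable def gker (b c r : ℝ) : ℝ := Real.exp (c * r - b * Real.exp r)

theorem gker_eq (b c r : ℝ) :
    gker b c r = |Real.exp r| • ((Real.exp r) ^ (c - 1) * Real.exp (-(b * Real.exp r))) := by
  rw [gker, abs_of_pos (Real.exp_pos r), smul_eq_mul, ← Real.exp_mul, ← Real.exp_add,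
    ← Real.exp_add]
  congr 1
  ring

theorem image_exp_univ : Real.exp '' univ = Ioi (0 : ℝ) := by
  rw [image_univ, Real.range_exp]

theorem integrable_gker {b c : ℝ} (hb : 0 < b) (hc : 0 < c) : Integrable (gker b c) := by
  have h := integrableOn_image_iff_integrableOn_abs_deriv_smul (s := univ)
    (f := Real.exp) (f' := Real.exp) MeasurableSet.univ
    (fun x _ => (Real.hasDerivAt_exp x).hasDerivWithinAt) Real.exp_injective.injOn
    (fun u => u ^ (c - 1) * Real.exp (-(b * u)))
  rw [image_exp_univ] at h
  have h2 : IntegrableOn (fun u : ℝ => u ^ (c - 1) * Real.exp (-(b * u))) (Ioi 0) := by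
    have := integrableOn_rpow_mul_exp_neg_mul_rpow (p := 1) (s := c - 1) (b := b) (by linarith)
      one_pos hb
    refine this.congr_fun ?_ measurableSet_Ioi
    intro u _
    simp
  have h3 := h.mp h2
  rw [integrableOn_univ] at h3
  refine h3.congr (Eventually.of_forall fun r => ?_)
  rw [gker_eq]

theorem integral_gker {b c : ℝ} (hb : 0 < b) (hc : 0 < c) :
    ∫ r, gker b c r = b ^ (-c) * Real.Gamma c := by
  have h := integral_image_eq_integral_abs_deriv_smul (s := univ)
    (f := Real.exp) (f' := Real.exp) MeasurableSet.univ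
    (fun x _ => (Real.hasDerivAt_exp x).hasDerivWithinAt) Real.exp_injective.injOn
    (fun u => u ^ (c - 1) * Real.exp (-(b * u)))
  rw [image_exp_univ, Real.integral_rpow_mul_exp_neg_mul_Ioi hc hb, setIntegral_univ] at h
  rw [show (fun r => gker b c r) = fun r => |Real.exp r| • ((Real.exp r) ^ (c - 1) *
    Real.exp (-(b * Real.exp r))) from funext fun r => gker_eq b c r, ← h, one_div,
    Real.inv_rpow hb.le, Real.rpow_neg hb.le]

theorem gammaMix : GammaMix := by
  intro a c ha hc
  have hG : 0 < Real.Gamma c := Real.Gamma_pos_of_pos hc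
  have ha2 : 0 < a / 2 := by linarith
  have hK : 0 < (a / 2) ^ c / Real.Gamma c := div_pos (Real.rpow_pos_of_pos ha2 c) hG
  refine ⟨fun r => (a / 2) ^ c / Real.Gamma c * gker (a / 2) c r, ?_, ?_, ?_, ?_, ?_⟩
  · intro r
    exact mul_nonneg hK.le (Real.exp_pos _).le
  · intro x y t ht0 ht1
    have hx : ∀ r, (a / 2) ^ c / Real.Gamma c * gker (a / 2) c r =
        Real.exp (Real.log ((a / 2) ^ c / Real.Gamma c) + (c * r - a / 2 * Real.exp r)) := by
      intro r
      rw [Real.exp_add, Real.exp_log hK, gker]
    beta_reduce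
    rw [hx, hx, hx, ← Real.exp_mul, ← Real.exp_mul, ← Real.exp_add, Real.exp_le_exp]
    have hconv := convexOn_exp.2 (mem_univ x) (mem_univ y) ht0 (by linarith : 0 ≤ 1 - t)
      (by ring)
    simp only [smul_eq_mul] at hconv
    nlinarith [mul_le_mul_of_nonneg_left hconv ha2.le]
  · refine Measurable.const_mul ?_ _
    have : Continuous (gker (a / 2) c) := by
      unfold gker
      fun_prop
    exact this.measurable
  · exact (integrable_gker ha2 hc).const_mul _
  · intro x
    have hb : 0 < (a + x ^ 2) / 2 := by positivity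
    have h1 : ∀ r, Real.exp (-(Real.exp r * x ^ 2 / 2)) *
        ((a / 2) ^ c / Real.Gamma c * gker (a / 2) c r) =
        (a / 2) ^ c / Real.Gamma c * gker ((a + x ^ 2) / 2) c r := by
      intro r
      rw [mul_left_comm]
      congr 1
      rw [gker, gker, ← Real.exp_add]
      congr 1
      ring
    simp only [h1]
    rw [integral_const_mul, integral_gker hb hc]
    rw [show 1 + x ^ 2 / a = ((a + x ^ 2) / 2) / (a / 2) by field_simp]
    rw [Real.div_rpow hb.le ha2.le, Real.rpow_neg ha2.le]
    field_simp

end Pool.Agent.Lib.MP_2d002d_gt.H96
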