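import Pool.Agent.Lib.MP_2d002d_gt.Interfaces

/-!
# MP_2d002d_gt, module M10b: joint log-concavity gives Brunn-Minkowski with exponent `1 / n`
-/

set_option autoImplicit false

open MeasureTheory Set Filter Topology
open scoped ENNReal Pointwise

namespace Pool.Agent.Lib.MP_2d002d_gt.H96

section scaling

variable {n : ℕ}

theorem integral_scale (f : (Fin n → ℝ) → ℝ) (A : Set (Fin n → ℝ)) {c : ℝ} (hc : 0 < c) :
    ∫ x in c • A, f (c⁻¹ • x) = c ^ n * ∫ x in A, f x := by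
  have h := Measure.setIntegral_comp_smul_of_pos (volume : Measure (Fin n → ℝ))
    (fun x => f (c⁻¹ • x)) A hc
  simp only [smul_smul, inv_mul_cancel₀ hc.ne', one_smul, Module.finrank_fin_fun,
    smul_eq_mul] at h
  rw [h, ← mul_assoc, mul_inv_cancel₀ (pow_ne_zero n hc.ne'), one_mul]

theorem zero_mem_of_symm {A : Set (Fin n → ℝ)} (hA : Convex ℝ A) (hne : A.Nonempty)
    (hs : ∀ x ∈ A, -x ∈ A) : (0 : Fin n → ℝ) ∈ A := by
  obtain ⟨x, hx⟩ := hne
  have h := hA hx (hs x hx) (by norm_num : (0 : ℝ) ≤ 1 / 2) (by norm_num : (0 : ℝ) ≤ 1 / 2)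
    (by norm_num)
  simpa using h

end scaling

section main

variable {n : ℕ} {f : (Fin n → ℝ) → ℝ}

theorem f_le_zero (hrad : ∀ x (s : ℝ), 0 ≤ s → s ≤ 1 → f x ≤ f (s • x)) (x : Fin n → ℝ) :
    f x ≤ f 0 := by
  have := hrad x 0 le_rfl zero_le_one
  simpa using this

theorem integrableOn_bdd (h0 : ∀ x, 0 ≤ f x) (hm : AEMeasurable f)
    (hrad : ∀ x (s : ℝ), 0 ≤ s → s ≤ 1 → f x ≤ f (s • x)) {A : Set (Fin n → ℝ)}
    (hA : Bornology.IsBounded A) : IntegrableOn f A := by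
  refine ⟨hm.aestronglyMeasurable.restrict, ?_⟩
  refine HasFiniteIntegral.restrict_of_bounded (C := f 0) ?_ ?_
  · exact hA.measure_lt_top
  · refine Eventually.of_forall fun x => ?_
    rw [Real.norm_eq_abs, abs_of_nonneg (h0 x)]
    exact f_le_zero hrad x

theorem measure_eq (h0 : ∀ x, 0 ≤ f x) (hm : AEMeasurable f)
    (hrad : ∀ x (s : ℝ), 0 ≤ s → s ≤ 1 → f x ≤ f (s • x)) {A : Set (Fin n → ℝ)}
    (hA : Bornology.IsBounded A) :
    (volume.withDensity (fun x => ENNReal.ofReal (f x))) A = ENNReal.ofReal (∫ x in A, f x) := by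
  rw [withDensity_apply', ofReal_integral_eq_lintegral_ofReal (integrableOn_bdd h0 hm hrad hA)]
  exact Eventually.of_forall fun x => h0 x

theorem scaled_le (h0 : ∀ x, 0 ≤ f x) (hm : AEMeasurable f)
    (hrad : ∀ x (s : ℝ), 0 ≤ s → s ≤ 1 → f x ≤ f (s • x)) {B : Set (Fin n → ℝ)}
    (hB : Bornology.IsBounded B) {c : ℝ} (hc : 0 < c) (hc1 : c ≤ 1) :
    c ^ n * ∫ x in B, f x ≤ ∫ x in c • B, f x := by
  rw [← integral_scale f B hc]
  refine integral_mono_of_nonneg (Eventually.of_forall fun x => h0 _)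
    (integrableOn_bdd h0 hm hrad (hB.smul₀ c)) (Eventually.of_forall fun x => ?_)
  have := hrad (c⁻¹ • x) c hc.le hc1
  rwa [smul_smul, mul_inv_cancel₀ hc.ne', one_smul] at this

theorem intOn_nonneg (h0 : ∀ x, 0 ≤ f x) (A : Set (Fin n → ℝ)) : 0 ≤ ∫ x in A, f x :=
  integral_nonneg h0

theorem intOn_mono (h0 : ∀ x, 0 ≤ f x) (hm : AEMeasurable f)
    (hrad : ∀ x (s : ℝ), 0 ≤ s → s ≤ 1 → f x ≤ f (s • x)) {A B : Set (Fin n → ℝ)}
    (hB : Bornology.IsBounded B) (hAB : A ⊆ B) : ∫ x in A, f x ≤ ∫ x in B, f x :=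
  setIntegral_mono_set (integrableOn_bdd h0 hm hrad hB) (Eventually.of_forall h0)
    (Eventually.of_forall hAB)

/-- the real-valued Brunn-Minkowski inequality for bounded sets -/
theorem bm_real (hn : 1 ≤ n) (h0 : ∀ x, 0 ≤ f x) (hm : AEMeasurable f)
    (hrad : ∀ x (s : ℝ), 0 ≤ s → s ≤ 1 → f x ≤ f (s • x)) (hJ : JLC f)
    {A B : Set (Fin n → ℝ)} (hA : Convex ℝ A) (hB : Convex ℝ B) (hAne : A.Nonempty)
    (hBne : B.Nonempty) (hAs : ∀ x ∈ A, -x ∈ A) (hBs : ∀ x ∈ B, -x ∈ B)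
    (hAb : Bornology.IsBounded A) (hBb : Bornology.IsBounded B) {t : ℝ} (ht0 : 0 < t)
    (ht1 : t < 1) :
    t * (∫ x in A, f x) ^ (1 / (n : ℝ)) + (1 - t) * (∫ x in B, f x) ^ (1 / (n : ℝ)) ≤
      (∫ x in t • A + (1 - t) • B, f x) ^ (1 / (n : ℝ)) := by
  have hn0 : n ≠ 0 := by omega
  have hnr : (n : ℝ) ≠ 0 := Nat.cast_ne_zero.mpr hn0
  have hs1 : 0 < 1 - t := by linarith
  have hA0 := zero_mem_of_symm hA hAne hAs
  have hB0 := zero_mem_of_symm hB hBne hBs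
  have hSb : Bornology.IsBounded (t • A + (1 - t) • B) := (hAb.smul₀ t).add (hBb.smul₀ (1 - t))
  have hp0 := intOn_nonneg h0 A
  have hp1 := intOn_nonneg h0 B
  have hexp : 0 < 1 / (n : ℝ) := by positivity
  have key : ∀ (c : ℝ) (D : Set (Fin n → ℝ)), 0 < c → c ≤ 1 → Bornology.IsBounded D →
      c • D ⊆ t • A + (1 - t) • B →
      c * (∫ x in D, f x) ^ (1 / (n : ℝ)) ≤
        (∫ x in t • A + (1 - t) • B, f x) ^ (1 / (n : ℝ)) := by
    intro c D hc hc1 hDb hsub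
    have h1 := (scaled_le h0 hm hrad hDb hc hc1).trans (intOn_mono h0 hm hrad hSb hsub)
    have h2 : c * (∫ x in D, f x) ^ (1 / (n : ℝ)) = (c ^ n * ∫ x in D, f x) ^ (1 / (n : ℝ)) := by
      rw [Real.mul_rpow (pow_nonneg hc.le n) (intOn_nonneg h0 D), one_div,
        Real.pow_rpow_inv_natCast hc.le hn0]
    rw [h2]
    exact Real.rpow_le_rpow (mul_nonneg (pow_nonneg hc.le n) (intOn_nonneg h0 D)) h1 hexp.le
  rcases hp0.eq_or_lt with hA' | hA'
  · rw [← hA', Real.zero_rpow hexp.ne', mul_zero, zero_add]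
    refine key (1 - t) B hs1 (by linarith) hBb ?_
    intro x hx
    exact ⟨0, ⟨0, hA0, smul_zero _⟩, x, hx, zero_add x⟩
  rcases hp1.eq_or_lt with hB' | hB'
  · rw [← hB', Real.zero_rpow hexp.ne', mul_zero, add_zero]
    refine key t A ht0 ht1.le hAb ?_
    intro x hx
    exact ⟨x, hx, 0, ⟨0, hB0, smul_zero _⟩, add_zero x⟩
  set p0 := ∫ x in A, f x with hp0def
  set p1 := ∫ x in B, f x with hp1def
  set ρ0 := p0 ^ (1 / (n : ℝ)) with hρ0
  set ρ1 := p1 ^ (1 / (n : ℝ)) with hρ1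
  have hρ0p : 0 < ρ0 := Real.rpow_pos_of_pos hA' _
  have hρ1p : 0 < ρ1 := Real.rpow_pos_of_pos hB' _
  have hpow0 : ρ0 ^ n = p0 := by
    rw [hρ0, one_div, Real.rpow_inv_natCast_pow hA'.le hn0]
  have hpow1 : ρ1 ^ n = p1 := by
    rw [hρ1, one_div, Real.rpow_inv_natCast_pow hB'.le hn0]
  set S := t * ρ0 + (1 - t) * ρ1 with hS
  have hSp : 0 < S := by positivity
  have ha0 : 0 < S / ρ0 := div_pos hSp hρ0p
  have ha1 : 0 < S / ρ1 := div_pos hSp hρ1p
  set τ := (1 - t) * ρ1 / S with hτ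
  have hτ0 : 0 < τ := div_pos (mul_pos hs1 hρ1p) hSp
  have hτ1' : 1 - τ = t * ρ0 / S := by
    rw [hτ, hS]
    field_simp
    ring
  have hτ1 : τ < 1 := by
    have : 0 < 1 - τ := by
      rw [hτ1']
      positivity
    linarith
  have h := hJ ((S / ρ0) • A) ((S / ρ1) • B) (S / ρ0) (S / ρ1) τ (hA.smul _) (hB.smul _)
    hAne.smul_set hBne.smul_set ?_ ?_ (hAb.smul₀ _) (hBb.smul₀ _) ha0 ha1 hτ0 hτ1
  · have e1 : (1 - τ) * (S / ρ0) = t := by
      rw [hτ1']
      field_simp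
    have e2 : τ * (S / ρ1) = 1 - t := by
      rw [hτ]
      field_simp
    have e3 : (1 - τ) * (S / ρ0) + τ * (S / ρ1) = 1 := by
      rw [e1, e2]
      ring
    have e4 : (S / ρ0) ^ n * p0 = S ^ n := by
      rw [div_pow, hpow0]
      field_simp
    have e5 : (S / ρ1) ^ n * p1 = S ^ n := by
      rw [div_pow, hpow1]
      field_simp
    rw [e3, integral_scale f A ha0, integral_scale f B ha1, ← hp0def, ← hp1def, e4, e5, smul_smul,
      smul_smul, e1, e2, ← Real.rpow_add (pow_pos hSp n), sub_add_cancel, Real.rpow_one] at h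
    simp only [inv_one, one_smul] at h
    have h2 := Real.rpow_le_rpow (pow_nonneg hSp.le n) h hexp.le
    rw [one_div, Real.pow_rpow_inv_natCast hSp.le hn0] at h2
    rwa [one_div]
  · rintro _ ⟨x, hx, rfl⟩
    exact ⟨-x, hAs x hx, smul_neg _ _⟩
  · rintro _ ⟨x, hx, rfl⟩
    exact ⟨-x, hBs x hx, smul_neg _ _⟩

/-- the inequality for bounded sets, `ENNReal` form -/
theorem bm_bdd (hn : 1 ≤ n) (h0 : ∀ x, 0 ≤ f x) (hm : AEMeasurable f)
    (hrad : ∀ x (s : ℝ), 0 ≤ s → s ≤ 1 → f x ≤ f (s • x)) (hJ : JLC f)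
    {A B : Set (Fin n → ℝ)} (hA : Convex ℝ A) (hB : Convex ℝ B) (hAne : A.Nonempty)
    (hBne : B.Nonempty) (hAs : ∀ x ∈ A, -x ∈ A) (hBs : ∀ x ∈ B, -x ∈ B)
    (hAb : Bornology.IsBounded A) (hBb : Bornology.IsBounded B) {t : ℝ} (ht0 : 0 < t)
    (ht1 : t < 1) :
    ENNReal.ofReal t * ((volume.withDensity (fun x => ENNReal.ofReal (f x))) A) ^ (1 / (n : ℝ))
        + ENNReal.ofReal (1 - t) *
          ((volume.withDensity (fun x => ENNReal.ofReal (f x))) B) ^ (1 / (n : ℝ))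
        ≤ ((volume.withDensity (fun x => ENNReal.ofReal (f x))) (t • A + (1 - t) • B)) ^
          (1 / (n : ℝ)) := by
  have hexp : 0 ≤ 1 / (n : ℝ) := by positivity
  have hs1 : 0 < 1 - t := by linarith
  have hSb : Bornology.IsBounded (t • A + (1 - t) • B) := (hAb.smul₀ t).add (hBb.smul₀ (1 - t))
  rw [measure_eq h0 hm hrad hAb, measure_eq h0 hm hrad hBb, measure_eq h0 hm hrad hSb,
    ENNReal.ofReal_rpow_of_nonneg (intOn_nonneg h0 A) hexp,
    ENNReal.ofReal_rpow_of_nonneg (intOn_nonneg h0 B) hexp,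
    ENNReal.ofReal_rpow_of_nonneg (intOn_nonneg h0 _) hexp, ← ENNReal.ofReal_mul ht0.le,
    ← ENNReal.ofReal_mul hs1.le, ← ENNReal.ofReal_add
      (mul_nonneg ht0.le (Real.rpow_nonneg (intOn_nonneg h0 A) _))
      (mul_nonneg hs1.le (Real.rpow_nonneg (intOn_nonneg h0 B) _))]
  exact ENNReal.ofReal_le_ofReal (bm_real hn h0 hm hrad hJ hA hB hAne hBne hAs hBs hAb hBb ht0 ht1)

/-- truncation of a set to a ball -/
def trunc (A : Set (Fin n → ℝ)) (R : ℕ) : Set (Fin n → ℝ) := A ∩ Metric.closedBall 0 (R : ℝ)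

theorem trunc_mono (A : Set (Fin n → ℝ)) : Monotone (trunc A) := fun a b hab =>
  inter_subset_inter_right _ (Metric.closedBall_subset_closedBall (by exact_mod_cast hab))

theorem iUnion_trunc (A : Set (Fin n → ℝ)) : ⋃ R, trunc A R = A := by
  unfold trunc
  rw [← inter_iUnion, Metric.iUnion_closedBall_nat, inter_univ]

theorem toBM : ToBM := by
  intro n f hn h0 hm hrad hJ A B hA hB hAne hBne hAs hBs t ht0 ht1
  have hA0 := zero_mem_of_symm hA hAne hAs
  have hB0 := zero_mem_of_symm hB hBne hBs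
  have hexp : 0 < 1 / (n : ℝ) := by
    have : 0 < (n : ℝ) := by exact_mod_cast hn
    positivity
  rcases ht0.eq_or_lt with rfl | ht0'
  · simp only [ENNReal.ofReal_zero, zero_mul, zero_add, sub_zero, ENNReal.ofReal_one, one_mul,
      one_smul]
    refine ENNReal.rpow_le_rpow (measure_mono ?_) hexp.le
    intro x hx
    exact ⟨0, ⟨0, hA0, smul_zero _⟩, x, hx, zero_add x⟩
  rcases ht1.eq_or_lt with rfl | ht1'
  · simp only [sub_self, ENNReal.ofReal_zero, zero_mul, add_zero, ENNReal.ofReal_one, one_mul,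
      one_smul]
    refine ENNReal.rpow_le_rpow (measure_mono ?_) hexp.le
    intro x hx
    exact ⟨x, hx, 0, ⟨0, hB0, smul_zero _⟩, add_zero x⟩
  set μ := (volume : Measure (Fin n → ℝ)).withDensity (fun x => ENNReal.ofReal (f x)) with hμ
  have hbd : ∀ (D : Set (Fin n → ℝ)) (R : ℕ), Bornology.IsBounded (trunc D R) := fun D R =>
    Metric.isBounded_closedBall.subset inter_subset_right
  have hcx : ∀ (D : Set (Fin n → ℝ)) (R : ℕ), Convex ℝ D → Convex ℝ (trunc D R) := fun D R h =>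
    h.inter (convex_closedBall 0 (R : ℝ))
  have hsy : ∀ (D : Set (Fin n → ℝ)) (R : ℕ), (∀ x ∈ D, -x ∈ D) →
      ∀ x ∈ trunc D R, -x ∈ trunc D R := by
    intro D R h x hx
    refine ⟨h x hx.1, ?_⟩
    have := hx.2
    simpa [Metric.mem_closedBall, dist_zero_right] using this
  have hne : ∀ (D : Set (Fin n → ℝ)) (R : ℕ), (0 : Fin n → ℝ) ∈ D → (trunc D R).Nonempty :=
    fun D R h => ⟨0, h, by simp⟩
  have hle : ∀ R : ℕ, ENNReal.ofReal t * (μ (trunc A R)) ^ (1 / (n : ℝ)) +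
      ENNReal.ofReal (1 - t) * (μ (trunc B R)) ^ (1 / (n : ℝ)) ≤
        (μ (t • A + (1 - t) • B)) ^ (1 / (n : ℝ)) := by
    intro R
    refine (bm_bdd hn h0 hm hrad hJ (hcx A R hA) (hcx B R hB) (hne A R hA0) (hne B R hB0)
      (hsy A R hAs) (hsy B R hBs) (hbd A R) (hbd B R) ht0' ht1').trans ?_
    refine ENNReal.rpow_le_rpow (measure_mono ?_) hexp.le
    exact add_subset_add (smul_set_mono inter_subset_left) (smul_set_mono inter_subset_left)
  have hlim : ∀ D : Set (Fin n → ℝ), Tendsto (fun R => (μ (trunc D R)) ^ (1 / (n : ℝ))) atTop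
      (𝓝 ((μ D) ^ (1 / (n : ℝ)))) := by
    intro D
    have h1 := tendsto_measure_iUnion_atTop (μ := μ) (trunc_mono D)
    rw [iUnion_trunc] at h1
    exact (ENNReal.continuous_rpow_const.tendsto _).comp h1
  refine le_of_tendsto' (Tendsto.add
    (ENNReal.Tendsto.const_mul (hlim A) (Or.inr ENNReal.ofReal_ne_top))
    (ENNReal.Tendsto.const_mul (hlim B) (Or.inr ENNReal.ofReal_ne_top))) hle

end main

end Pool.Agent.Lib.MP_2d002d_gt.H96
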